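import Mathlib

/-! A red-blue bipartite graph with the Hall-type condition and no covering alternating path. -/

namespace Pool.Agent.Results.MP_9cf868_co.NoPath

open SimpleGraph

/-- Vertices joined to `X` by a red edge (colour `true`) and by a blue edge (colour `false`). -/
def NRB {V : Type} (G : SimpleGraph V) (c : Sym2 V → Bool) (X : Set V) : Set V :=
  {v | (∃ x ∈ X, G.Adj x v ∧ c s(x, v) = true) ∧ ∃ x ∈ X, G.Adj x v ∧ c s(x, v) = false}

def red : Finset (Sym2 (Fin 7)) := {s(0, 4), s(2, 4), s(2, 5), s(3, 5), s(3, 6)}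

def blue : Finset (Sym2 (Fin 7)) := {s(1, 4), s(3, 4), s(0, 5), s(1, 5), s(0, 6)}

def G0 : SimpleGraph (Fin 7) where
  Adj a b := s(a, b) ∈ red ∪ blue
  symm := ⟨fun a b h => by rwa [Sym2.eq_swap]⟩
  loopless := ⟨by decide⟩

instance : DecidableRel G0.Adj := fun a b => by unfold G0; infer_instance

def c0 (e : Sym2 (Fin 7)) : Bool := e ∈ red

def A0 : Finset (Fin 7) := {0, 1, 2, 3}

def ok (l : List (Fin 7)) : Prop :=
  l.IsChain G0.Adj ∧ l.Nodup ∧ ((l.zipWith (fun a b => c0 s(a, b)) l.tail).IsChain (· ≠ ·))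

instance : DecidablePred ok := fun l => by unfold ok; infer_instance

lemma ok_tail (a : Fin 7) (l : List (Fin 7)) (h : ok (a :: l)) : ok l := by
  refine ⟨h.1.tail, h.2.1.tail, ?_⟩
  cases l with
  | nil => simp
  | cons b l => exact h.2.2.tail

def all : ℕ → List (List (Fin 7))
  | 0 => [[]]
  | n + 1 => ((all n).flatMap fun l => (List.finRange 7).map (· :: l)).filter ok

lemma mem_all (l : List (Fin 7)) (h : ok l) : l ∈ all l.length := by
  induction l with
  | nil => simp [all]
  | cons a l ih =>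
    simp only [all, List.length_cons, List.mem_filter, List.mem_flatMap, List.mem_map,
      decide_eq_true_eq]
    exact ⟨⟨l, ih (ok_tail a l h), a, List.mem_finRange a, rfl⟩, h⟩

lemma edges_eq {u v : Fin 7} (p : G0.Walk u v) :
    p.edges.map c0 = p.support.zipWith (fun a b => c0 s(a, b)) p.support.tail := by
  induction p with
  | nil => simp
  | cons h p ih => cases p <;> simp_all

theorem result : ∃ (G : SimpleGraph (Fin 7)) (A : Set (Fin 7)) (c : Sym2 (Fin 7) → Bool),
    (∀ u v, G.Adj u v → (u ∈ A ↔ v ∉ A)) ∧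
    (∀ X ⊆ A, X.ncard ≤ (NRB G c X).ncard + 1) ∧
    ¬ ∃ (u v : Fin 7) (p : G.Walk u v), p.IsPath ∧ (p.edges.map c).IsChain (· ≠ ·) ∧
      ∀ a ∈ A, a ∈ p.support := by
  refine ⟨G0, A0, c0, by decide, fun X hX => ?_, ?_⟩
  · obtain ⟨T, rfl⟩ := (Set.toFinite X).exists_finset_coe
    have : NRB G0 c0 T = ↑(Finset.univ.filter fun v => (∃ x ∈ T, G0.Adj x v ∧ c0 s(x, v) = true) ∧
        ∃ x ∈ T, G0.Adj x v ∧ c0 s(x, v) = false) := by
      ext v; simp [NRB]
    rw [this, Set.ncard_coe_finset, Set.ncard_coe_finset]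
    rw [Finset.coe_subset] at hX
    clear this
    revert T
    decide +kernel
  · rintro ⟨u, v, p, h1, h2, h3⟩
    have h := mem_all p.support ⟨p.isChain_adj_support, h1.support_nodup, edges_eq p ▸ h2⟩
    have hl : p.support.length < 8 := by
      have := h1.support_nodup.length_le_card
      simp at this ⊢; omega
    have key : ∀ n < 8, ∀ l ∈ all n, ¬ ∀ a ∈ A0, a ∈ l := by decide +kernel
    exact key _ hl _ h h3

end Pool.Agent.Results.MP_9cf868_co.NoPath
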